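import Mathlib
import Pool.Agent.R957.Mmpp.Defs

/-! Energy inequality for Markov-modulated Poisson processes. -/

set_option autoImplicit false

namespace Pool.Agent.NH98.Mmpp

open Matrix Pool.R957.Mmpp Finset

variable {p : ℕ} (M : MMPP p) (piv : Fin p → ℝ)

/-- the stationary vector is positive -/
theorem piv_pos (h : M.IsStat piv) (j : Fin p) : 0 < piv j := by
  by_contra hj
  have hj0 : piv j = 0 := le_antisymm (not_lt.1 hj) (h.nonneg j)
  have step : ∀ a b, 0 < M.Q a b → piv b = 0 → piv a = 0 := by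
    intro a b hab hb
    have hs := congrFun h.stat b
    simp only [Matrix.vecMul, dotProduct, Pi.zero_apply] at hs
    have hnn : ∀ i ∈ univ, 0 ≤ piv i * M.Q i b := by
      intro i _
      rcases eq_or_ne i b with rfl | hib
      · rw [hb, zero_mul]
      · exact mul_nonneg (h.nonneg i) (M.gen.offdiag i b hib)
    have := (Finset.sum_eq_zero_iff_of_nonneg hnn).1 hs a (mem_univ a)
    rcases mul_eq_zero.1 this with h1 | h1
    · exact h1
    · exact absurd h1 hab.ne'
  have all : ∀ i, piv i = 0 := by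
    intro i
    have := M.gen.irred i j
    induction this using Relation.ReflTransGen.head_induction_on with
    | refl => exact hj0
    | head hab _ ih => exact step _ _ hab ih
  have := h.sum_one
  simp [all] at this

/-- the Dirichlet form -/
theorem dirichlet (h : M.IsStat piv) (v : Fin p → ℝ) :
    ∑ i, ∑ j, piv i * M.Q i j * (v i * v j) =
      -(1 / 2) * ∑ i, ∑ j, piv i * M.Q i j * (v i - v j) ^ 2 := by
  have h1 : ∑ i, ∑ j, piv i * M.Q i j * v i ^ 2 = 0 := by
    refine Finset.sum_eq_zero fun i _ => ?_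
    rw [← Finset.sum_mul, ← Finset.mul_sum, M.gen.rowsum i]
    ring
  have h2 : ∑ i, ∑ j, piv i * M.Q i j * v j ^ 2 = 0 := by
    rw [Finset.sum_comm]
    refine Finset.sum_eq_zero fun j _ => ?_
    rw [← Finset.sum_mul]
    have hs := congrFun h.stat j
    simp only [Matrix.vecMul, dotProduct, Pi.zero_apply] at hs
    rw [hs]
    ring
  have h3 : ∑ i, ∑ j, piv i * M.Q i j * (v i - v j) ^ 2 =
      ∑ i, ∑ j, piv i * M.Q i j * v i ^ 2 + ∑ i, ∑ j, piv i * M.Q i j * v j ^ 2
        - 2 * ∑ i, ∑ j, piv i * M.Q i j * (v i * v j) := by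
    simp only [Finset.mul_sum, ← Finset.sum_add_distrib, ← Finset.sum_sub_distrib]
    refine Finset.sum_congr rfl fun i _ => Finset.sum_congr rfl fun j _ => ?_
    ring
  rw [h3, h1, h2]
  ring

theorem energy_nonneg (h : M.IsStat piv) (v : Fin p → ℝ) :
    0 ≤ ∑ i, ∑ j, piv i * M.Q i j * (v i - v j) ^ 2 := by
  refine Finset.sum_nonneg fun i _ => Finset.sum_nonneg fun j _ => ?_
  rcases eq_or_ne i j with rfl | hij
  · simp
  · exact mul_nonneg (mul_nonneg (h.nonneg i) (M.gen.offdiag i j hij)) (sq_nonneg _)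

/-- the components of `C v` -/
theorem C_mulVec (v : Fin p → ℝ) (i : Fin p) :
    (M.C *ᵥ v) i = ∑ j, M.Q i j * v j - M.lam i * v i := by
  unfold MMPP.C MMPP.D
  rw [Matrix.sub_mulVec, Pi.sub_apply, Matrix.mulVec_diagonal]
  rfl

/-- pairing of `C v` with `v` -/
theorem pair_C (h : M.IsStat piv) (v : Fin p → ℝ) :
    ∑ i, piv i * v i * (M.C *ᵥ v) i =
      -(1 / 2) * ∑ i, ∑ j, piv i * M.Q i j * (v i - v j) ^ 2 - ∑ i, piv i * M.lam i * v i ^ 2 := by
  rw [← dirichlet M piv h v, ← Finset.sum_sub_distrib]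
  refine Finset.sum_congr rfl fun i _ => ?_
  rw [C_mulVec, mul_sub, Finset.mul_sum]
  congr 1
  · refine Finset.sum_congr rfl fun j _ => ?_
    ring
  · ring

/-- `C` is injective -/
theorem C_inj (h : M.IsStat piv) (v : Fin p → ℝ) (hv : M.C *ᵥ v = 0) : v = 0 := by
  have h1 := pair_C M piv h v
  rw [hv] at h1
  simp only [Pi.zero_apply, mul_zero, Finset.sum_const_zero] at h1
  have hE := energy_nonneg M piv h v
  have hL : 0 ≤ ∑ i, piv i * M.lam i * v i ^ 2 :=
    Finset.sum_nonneg fun i _ => mul_nonneg (mul_nonneg (h.nonneg i) (M.lam_nonneg i)) (sq_nonneg _)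
  have hE0 : ∑ i, ∑ j, piv i * M.Q i j * (v i - v j) ^ 2 = 0 := by linarith
  have hL0 : ∑ i, piv i * M.lam i * v i ^ 2 = 0 := by linarith
  have hconst : ∀ a b, 0 < M.Q a b → v a = v b := by
    intro a b hab
    have hnn : ∀ i ∈ univ, 0 ≤ ∑ j, piv i * M.Q i j * (v i - v j) ^ 2 := by
      intro i _
      refine Finset.sum_nonneg fun j _ => ?_
      rcases eq_or_ne i j with rfl | hij
      · simp
      · exact mul_nonneg (mul_nonneg (h.nonneg i) (M.gen.offdiag i j hij)) (sq_nonneg _)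
    have h2 := (Finset.sum_eq_zero_iff_of_nonneg hnn).1 hE0 a (mem_univ a)
    have hnn2 : ∀ j ∈ univ, 0 ≤ piv a * M.Q a j * (v a - v j) ^ 2 := by
      intro j _
      rcases eq_or_ne a j with rfl | hij
      · simp
      · exact mul_nonneg (mul_nonneg (h.nonneg a) (M.gen.offdiag a j hij)) (sq_nonneg _)
    have h3 := (Finset.sum_eq_zero_iff_of_nonneg hnn2).1 h2 b (mem_univ b)
    have h4 : 0 < piv a * M.Q a b := mul_pos (piv_pos M piv h a) hab
    have h5 : (v a - v b) ^ 2 = 0 := by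
      rcases mul_eq_zero.1 h3 with h6 | h6
      · exact absurd h6 h4.ne'
      · exact h6
    have := pow_eq_zero_iff (two_ne_zero) |>.1 h5
    linarith
  have hconst2 : ∀ a b, v a = v b := by
    intro a b
    have := M.gen.irred a b
    induction this using Relation.ReflTransGen.head_induction_on with
    | refl => rfl
    | head hab _ ih => rw [hconst _ _ hab, ih]
  obtain ⟨k, hk⟩ := M.lam_ne
  have hnn3 : ∀ i ∈ univ, 0 ≤ piv i * M.lam i * v i ^ 2 := fun i _ =>
    mul_nonneg (mul_nonneg (h.nonneg i) (M.lam_nonneg i)) (sq_nonneg _)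
  have h7 := (Finset.sum_eq_zero_iff_of_nonneg hnn3).1 hL0 k (mem_univ k)
  have h8 : v k = 0 := by
    rcases mul_eq_zero.1 h7 with h9 | h9
    · rcases mul_eq_zero.1 h9 with h10 | h10
      · exact absurd h10 (piv_pos M piv h k).ne'
      · exact absurd h10 hk
    · exact pow_eq_zero_iff (two_ne_zero) |>.1 h9
  funext i
  rw [hconst2 i k, h8, Pi.zero_apply]

theorem C_det (h : M.IsStat piv) : IsUnit M.C.det := by
  rw [isUnit_iff_ne_zero]
  intro h0
  obtain ⟨v, hv, hv0⟩ := Matrix.exists_mulVec_eq_zero_iff.2 h0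
  exact hv (C_inj M piv h v hv0)

/-- `y = (-C)⁻¹ 1` -/
noncomputable def y : Fin p → ℝ := -(M.C⁻¹ *ᵥ 1)

theorem C_y (h : M.IsStat piv) : M.C *ᵥ y M = -1 := by
  unfold y
  rw [Matrix.mulVec_neg, Matrix.mulVec_mulVec, Matrix.mul_nonsing_inv _ (C_det M piv h),
    Matrix.one_mulVec]

theorem piv_C (h : M.IsStat piv) (v : Fin p → ℝ) :
    piv ⬝ᵥ (M.C *ᵥ v) = -∑ i, piv i * M.lam i * v i := by
  have h1 : piv ⬝ᵥ (M.Q *ᵥ v) = 0 := by
    rw [Matrix.dotProduct_mulVec, h.stat, zero_dotProduct]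
  unfold MMPP.C MMPP.D
  rw [Matrix.sub_mulVec, dotProduct_sub, h1, zero_sub]
  congr 1
  unfold dotProduct
  refine Finset.sum_congr rfl fun i _ => ?_
  rw [Matrix.mulVec_diagonal]
  ring

theorem main_ineq (h : M.IsStat piv) :
    1 ≤ (piv ⬝ᵥ (M.C *ᵥ 1)) * (piv ⬝ᵥ (M.C⁻¹ *ᵥ 1)) := by
  have hy := C_y M piv h
  have e1 : ∑ i, piv i * M.lam i * y M i = 1 := by
    have := piv_C M piv h (y M)
    rw [hy] at this
    have h2 : piv ⬝ᵥ (-1 : Fin p → ℝ) = -1 := by
      rw [dotProduct_neg]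
      congr 1
      simp only [dotProduct, Pi.one_apply, mul_one]
      exact h.sum_one
    rw [h2] at this
    linarith
  have e2 : piv ⬝ᵥ (M.C *ᵥ 1) = -∑ i, piv i * M.lam i := by
    rw [piv_C M piv h]
    simp
  have e3 : piv ⬝ᵥ (M.C⁻¹ *ᵥ 1) = -∑ i, piv i * y M i := by
    unfold y
    simp [dotProduct]
  have e4 : ∑ i, piv i * M.lam i * y M i ^ 2 ≤ ∑ i, piv i * y M i := by
    have h1 := pair_C M piv h (y M)
    rw [hy] at h1
    have h2 : ∑ i, piv i * y M i * (-1 : Fin p → ℝ) i = -∑ i, piv i * y M i := by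
      rw [← Finset.sum_neg_distrib]
      refine Finset.sum_congr rfl fun i _ => ?_
      simp
    rw [h2] at h1
    have hE := energy_nonneg M piv h (y M)
    linarith
  have e5 : (∑ i, piv i * M.lam i * y M i) ^ 2 ≤
      (∑ i, piv i * M.lam i) * ∑ i, piv i * M.lam i * y M i ^ 2 := by
    apply Finset.sum_sq_le_sum_mul_sum_of_sq_eq_mul
    · intro i _
      exact mul_nonneg (h.nonneg i) (M.lam_nonneg i)
    · intro i _
      exact mul_nonneg (mul_nonneg (h.nonneg i) (M.lam_nonneg i)) (sq_nonneg _)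
    · intro i _
      ring
  have e6 : 0 ≤ ∑ i, piv i * M.lam i :=
    Finset.sum_nonneg fun i _ => mul_nonneg (h.nonneg i) (M.lam_nonneg i)
  rw [e2, e3, neg_mul_neg]
  calc (1 : ℝ) = (∑ i, piv i * M.lam i * y M i) ^ 2 := by rw [e1]; norm_num
    _ ≤ _ := e5
    _ ≤ _ := mul_le_mul_of_nonneg_left e4 e6

end Pool.Agent.NH98.Mmpp
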