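import Mathlib
import Pool.Agent.NH98.Mmpp

/-! Exponentials of matrices with nonnegative off-diagonal entries. -/

set_option autoImplicit false

namespace Pool.Agent.NH98.Mmpp

open Matrix Pool.R957.Mmpp Finset MeasureTheory Filter Topology

variable {p : ℕ}

/-- the linear functional `A ↦ a A w` -/
noncomputable def fn (a w : Fin p → ℝ) : Matrix (Fin p) (Fin p) ℝ →ₗ[ℝ] ℝ where
  toFun A := a ⬝ᵥ (A *ᵥ w)
  map_add' A B := by rw [Matrix.add_mulVec, dotProduct_add]
  map_smul' c A := by rw [Matrix.smul_mulVec, dotProduct_smul]; rfl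

section
open scoped Norms.Operator
set_option backward.isDefEq.respectTransparency false in
theorem hasSum_fn (a w : Fin p → ℝ) (A : Matrix (Fin p) (Fin p) ℝ) :
    HasSum (fun n : ℕ => ((n.factorial : ℝ)⁻¹) * (a ⬝ᵥ ((A ^ n) *ᵥ w)))
      (a ⬝ᵥ (NormedSpace.exp A *ᵥ w)) := by
  have h1 : HasSum (fun n : ℕ => ((n.factorial : ℝ)⁻¹) • A ^ n) (NormedSpace.exp A) :=
    NormedSpace.exp_series_hasSum_exp' (𝕂 := ℝ) A
  have h2 := (LinearMap.toContinuousLinearMap (fn a w)).hasSum h1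
  have h3 : (fun n : ℕ => ((n.factorial : ℝ)⁻¹) * (a ⬝ᵥ ((A ^ n) *ᵥ w))) =
      fun n : ℕ => (LinearMap.toContinuousLinearMap (fn a w)) (((n.factorial : ℝ)⁻¹) • A ^ n) := by
    funext n
    rw [map_smul]
    rfl
  rw [h3]
  exact h2

set_option backward.isDefEq.respectTransparency false in
theorem hasDerivAt_fn (a w : Fin p → ℝ) (A : Matrix (Fin p) (Fin p) ℝ) (t : ℝ) :
    HasDerivAt (fun s : ℝ => a ⬝ᵥ (NormedSpace.exp (s • A) *ᵥ w))
      (a ⬝ᵥ (NormedSpace.exp (t • A) *ᵥ (A *ᵥ w))) t := by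
  have h1 := hasDerivAt_exp_smul_const (𝕂 := ℝ) A t
  have h2 := (LinearMap.toContinuousLinearMap (fn a w)).hasFDerivAt.comp_hasDerivAt t h1
  rw [Matrix.mulVec_mulVec]
  exact h2
end

theorem pow_nonneg_entries (A : Matrix (Fin p) (Fin p) ℝ) (hA : ∀ i j, 0 ≤ A i j)
    (w : Fin p → ℝ) (hw : ∀ i, 0 ≤ w i) (n : ℕ) : ∀ i, 0 ≤ ((A ^ n) *ᵥ w) i := by
  induction n with
  | zero => intro i; simpa using hw i
  | succ n ih =>
    intro i
    rw [pow_succ', ← Matrix.mulVec_mulVec]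
    change 0 ≤ ∑ j, A i j * _
    exact Finset.sum_nonneg fun j _ => mul_nonneg (hA i j) (ih j)

/-- the exponential of a nonnegative matrix is nonnegative -/
theorem exp_nonneg1 (A : Matrix (Fin p) (Fin p) ℝ) (hA : ∀ i j, 0 ≤ A i j)
    (a w : Fin p → ℝ) (ha : ∀ i, 0 ≤ a i) (hw : ∀ i, 0 ≤ w i) :
    0 ≤ a ⬝ᵥ (NormedSpace.exp A *ᵥ w) := by
  have h := hasSum_fn a w A
  refine h.nonneg fun n => ?_
  refine mul_nonneg (by positivity) ?_
  exact Finset.sum_nonneg fun i _ => mul_nonneg (ha i) (pow_nonneg_entries A hA w hw n i)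

/-- the exponential of a matrix with nonnegative off-diagonal entries is nonnegative -/
theorem exp_nonneg2 (A : Matrix (Fin p) (Fin p) ℝ) (hA : ∀ i j, i ≠ j → 0 ≤ A i j)
    (a w : Fin p → ℝ) (ha : ∀ i, 0 ≤ a i) (hw : ∀ i, 0 ≤ w i) :
    0 ≤ a ⬝ᵥ (NormedSpace.exp A *ᵥ w) := by
  set c : ℝ := ∑ i, |A i i| with hc
  have hB : ∀ i j, 0 ≤ (A + Matrix.diagonal (fun _ : Fin p => c)) i j := by
    intro i j
    rcases eq_or_ne i j with rfl | hij
    · rw [Matrix.add_apply, Matrix.diagonal_apply_eq]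
      have : |A i i| ≤ c := Finset.single_le_sum (f := fun i => |A i i|)
        (fun _ _ => abs_nonneg _) (mem_univ i)
      have := neg_abs_le (A i i)
      linarith
    · rw [Matrix.add_apply, Matrix.diagonal_apply_ne _ hij, add_zero]
      exact hA i j hij
  have hcomm : Commute (A + Matrix.diagonal (fun _ : Fin p => c)) (Matrix.diagonal (fun _ : Fin p => -c)) := by
    have h1 : (Matrix.diagonal fun _ : Fin p => -c) = (-c) • (1 : Matrix (Fin p) (Fin p) ℝ) := by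
      rw [Matrix.smul_one_eq_diagonal]
    rw [h1]
    exact (Commute.one_right _).smul_right _
  have e : A = (A + Matrix.diagonal (fun _ : Fin p => c)) + Matrix.diagonal (fun _ : Fin p => -c) := by
    rw [add_assoc, Matrix.diagonal_add]
    simp
  rw [e, Matrix.exp_add_of_commute _ _ hcomm, Matrix.exp_diagonal, ← Matrix.mulVec_mulVec]
  refine exp_nonneg1 _ hB a _ ha fun i => ?_
  rw [Matrix.mulVec_diagonal]
  refine mul_nonneg ?_ (hw i)
  rw [Pi.coe_exp]
  rw [← Real.exp_eq_exp_ℝ]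
  exact (Real.exp_pos _).le

end Pool.Agent.NH98.Mmpp
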