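import Mathlib
import Pool.Agent.NH98.MmppExp

/-! The first two moments of the first event time. -/

set_option autoImplicit false

namespace Pool.Agent.NH98.Mmpp

open Matrix Pool.R957.Mmpp Finset MeasureTheory Filter Topology

variable {p : ℕ} (M : MMPP p) (piv : Fin p → ℝ)

theorem pos_of_C_neg (v : Fin p → ℝ) (hv : ∀ i, (M.C *ᵥ v) i < 0) (i : Fin p) : 0 < v i := by
  obtain ⟨k, -, hk⟩ := Finset.exists_min_image univ v ⟨i, mem_univ i⟩
  by_contra hi
  have hk0 : v k ≤ 0 := (hk i (mem_univ i)).trans (not_lt.1 hi)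
  have h1 := hv k
  rw [C_mulVec] at h1
  have h2 : ∑ j, M.Q k j * v j = ∑ j, M.Q k j * (v j - v k) := by
    simp only [mul_sub, Finset.sum_sub_distrib]
    rw [← Finset.sum_mul, M.gen.rowsum k]
    ring
  have h3 : 0 ≤ ∑ j, M.Q k j * (v j - v k) := by
    refine Finset.sum_nonneg fun j _ => ?_
    rcases eq_or_ne k j with rfl | hkj
    · simp
    · exact mul_nonneg (M.gen.offdiag k j hkj) (sub_nonneg.2 (hk j (mem_univ j)))
  have h4 : M.lam k * v k ≤ 0 := mul_nonpos_of_nonneg_of_nonpos (M.lam_nonneg k) hk0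
  linarith

theorem C_offdiag (i j : Fin p) (hij : i ≠ j) : 0 ≤ M.C i j := by
  unfold MMPP.C MMPP.D
  rw [Matrix.sub_apply, Matrix.diagonal_apply_ne _ hij, sub_zero]
  exact M.gen.offdiag i j hij

theorem exp_C_nonneg (a w : Fin p → ℝ) (ha : ∀ i, 0 ≤ a i) (hw : ∀ i, 0 ≤ w i) (t : ℝ)
    (ht : 0 ≤ t) : 0 ≤ a ⬝ᵥ (NormedSpace.exp (t • M.C) *ᵥ w) := by
  refine exp_nonneg2 _ (fun i j hij => ?_) a w ha hw
  rw [Matrix.smul_apply]
  exact mul_nonneg ht (C_offdiag M i j hij)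

theorem exp_C_mono (a w w' : Fin p → ℝ) (ha : ∀ i, 0 ≤ a i) (hw : ∀ i, w i ≤ w' i) (t : ℝ)
    (ht : 0 ≤ t) : a ⬝ᵥ (NormedSpace.exp (t • M.C) *ᵥ w) ≤
      a ⬝ᵥ (NormedSpace.exp (t • M.C) *ᵥ w') := by
  have h := exp_C_nonneg M a (w' - w) ha (fun i => by simpa using hw i) t ht
  rw [Matrix.mulVec_sub, dotProduct_sub] at h
  linarith

/-- total arrival rate -/
noncomputable def rate : ℝ := ∑ i, piv i * M.lam i

theorem rate_pos (h : M.IsStat piv) : 0 < rate M piv := by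
  obtain ⟨k, hk⟩ := M.lam_ne
  refine Finset.sum_pos' (fun i _ => mul_nonneg (h.nonneg i) (M.lam_nonneg i)) ⟨k, mem_univ k, ?_⟩
  exact mul_pos (piv_pos M piv h k) (lt_of_le_of_ne (M.lam_nonneg k) hk.symm)

/-- the event-stationary phase distribution `α = π D / (π D 1)` -/
noncomputable def alpha : Fin p → ℝ := (piv ⬝ᵥ (M.D *ᵥ 1))⁻¹ • (piv ᵥ* M.D)

theorem alpha_apply (i : Fin p) : alpha M piv i = (rate M piv)⁻¹ * (piv i * M.lam i) := by
  unfold alpha rate MMPP.D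
  rw [Pi.smul_apply, Matrix.vecMul_diagonal, smul_eq_mul]
  congr 2
  unfold dotProduct
  refine Finset.sum_congr rfl fun j _ => ?_
  rw [Matrix.mulVec_diagonal]
  simp

theorem alpha_nonneg (h : M.IsStat piv) (i : Fin p) : 0 ≤ alpha M piv i := by
  rw [alpha_apply]
  exact mul_nonneg (inv_nonneg.2 (rate_pos M piv h).le)
    (mul_nonneg (h.nonneg i) (M.lam_nonneg i))

theorem alpha_dot (v : Fin p → ℝ) :
    alpha M piv ⬝ᵥ v = (rate M piv)⁻¹ * ∑ i, piv i * M.lam i * v i := by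
  unfold dotProduct
  rw [Finset.mul_sum]
  refine Finset.sum_congr rfl fun i _ => ?_
  rw [alpha_apply]
  ring

theorem alpha_one (h : M.IsStat piv) : alpha M piv ⬝ᵥ 1 = 1 := by
  rw [alpha_dot]
  simp only [Pi.one_apply, mul_one]
  exact inv_mul_cancel₀ (rate_pos M piv h).ne'

/-- `α e^{Ct} v` -/
noncomputable def Fv (v : Fin p → ℝ) (t : ℝ) : ℝ :=
  alpha M piv ⬝ᵥ (NormedSpace.exp (t • M.C) *ᵥ v)

theorem Fv_zero (v : Fin p → ℝ) : Fv M piv v 0 = alpha M piv ⬝ᵥ v := by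
  unfold Fv
  rw [zero_smul, NormedSpace.exp_zero, Matrix.one_mulVec]

theorem Fv_deriv (v : Fin p → ℝ) (t : ℝ) :
    HasDerivAt (Fv M piv v) (Fv M piv (M.C *ᵥ v) t) t :=
  hasDerivAt_fn _ _ _ _

theorem Fv_neg (v : Fin p → ℝ) (t : ℝ) : Fv M piv (-v) t = -Fv M piv v t := by
  unfold Fv
  rw [Matrix.mulVec_neg, dotProduct_neg]

theorem Fv_smul (c : ℝ) (v : Fin p → ℝ) (t : ℝ) : Fv M piv (c • v) t = c * Fv M piv v t := by
  unfold Fv
  rw [Matrix.mulVec_smul, dotProduct_smul, smul_eq_mul]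

theorem Fv_nonneg (h : M.IsStat piv) (v : Fin p → ℝ) (hv : ∀ i, 0 ≤ v i) (t : ℝ) (ht : 0 ≤ t) :
    0 ≤ Fv M piv v t := exp_C_nonneg M _ _ (alpha_nonneg M piv h) hv t ht

theorem Fv_mono (h : M.IsStat piv) (v w : Fin p → ℝ) (hv : ∀ i, v i ≤ w i) (t : ℝ) (ht : 0 ≤ t) :
    Fv M piv v t ≤ Fv M piv w t := exp_C_mono M _ _ _ (alpha_nonneg M piv h) hv t ht

theorem Fv_cont (v : Fin p → ℝ) : Continuous (Fv M piv v) :=
  continuous_iff_continuousAt.2 fun t => (Fv_deriv M piv v t).continuousAt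

/-- two positive vectors are comparable -/
theorem comparable (v w : Fin p → ℝ) (hw : ∀ i, 0 < w i) :
    ∃ c : ℝ, 0 < c ∧ ∀ i, v i ≤ c * w i := by
  refine ⟨1 + ∑ i, |v i| / w i, ?_, fun i => ?_⟩
  · have : 0 ≤ ∑ i, |v i| / w i := Finset.sum_nonneg fun i _ => by
      have := hw i
      positivity
    linarith
  · have h1 : |v i| / w i ≤ ∑ i, |v i| / w i :=
      Finset.single_le_sum (f := fun i => |v i| / w i)
        (fun j _ => div_nonneg (abs_nonneg _) (hw j).le) (mem_univ i)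
    have h2 : |v i| ≤ (∑ i, |v i| / w i) * w i := by
      rwa [← div_le_iff₀ (hw i)]
    have h3 := le_abs_self (v i)
    have h4 := hw i
    nlinarith

/-- exponential decay -/
theorem Fv_decay (h : M.IsStat piv) (v w : Fin p → ℝ) (hv : ∀ i, 0 < v i) (hw : ∀ i, 0 < w i)
    (hC : M.C *ᵥ w = -v) : ∃ c : ℝ, 0 < c ∧ ∀ t, 0 ≤ t →
      Fv M piv w t ≤ Fv M piv w 0 * Real.exp (-(t / c)) := by
  obtain ⟨c, hc, hwv⟩ := comparable w v hv
  refine ⟨c, hc, fun t ht => ?_⟩
  have hanti : AntitoneOn (fun t => Fv M piv w t * Real.exp (t / c)) (Set.Ici 0) := by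
    have hd : ∀ t : ℝ, HasDerivAt (fun t => Fv M piv w t * Real.exp (t / c))
        (Fv M piv (M.C *ᵥ w) t * Real.exp (t / c) +
          Fv M piv w t * (Real.exp (t / c) * (1 / c))) t := by
      intro t
      refine (Fv_deriv M piv w t).mul ?_
      exact ((hasDerivAt_id t).div_const c).exp
    refine antitoneOn_of_deriv_nonpos (convex_Ici 0) ?_ ?_ ?_
    · exact fun t _ => (hd t).continuousAt.continuousWithinAt
    · exact fun t _ => (hd t).differentiableAt.differentiableWithinAt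
    · intro t ht
      rw [interior_Ici] at ht
      rw [(hd t).deriv, hC, Fv_neg]
      have h1 : Fv M piv w t ≤ c * Fv M piv v t := by
        rw [← Fv_smul]
        exact Fv_mono M piv h _ _ hwv t (le_of_lt ht)
      have h2 : Fv M piv w t / c ≤ Fv M piv v t := by
        rw [div_le_iff₀ hc]
        linarith
      have h3 : -Fv M piv v t * Real.exp (t / c) + Fv M piv w t * (Real.exp (t / c) * (1 / c)) =
          (Fv M piv w t / c - Fv M piv v t) * Real.exp (t / c) := by ring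
      rw [h3]
      exact mul_nonpos_of_nonpos_of_nonneg (by linarith) (Real.exp_pos _).le
  have h1 := hanti (Set.mem_Ici.2 le_rfl) (Set.mem_Ici.2 ht) ht
  simp only [zero_div, Real.exp_zero, mul_one] at h1
  rw [Real.exp_neg, ← div_eq_mul_inv, le_div_iff₀ (Real.exp_pos _)]
  exact h1

theorem Fv_tendsto (h : M.IsStat piv) (v w : Fin p → ℝ) (hv : ∀ i, 0 < v i) (hw : ∀ i, 0 < w i)
    (hC : M.C *ᵥ w = -v) : Tendsto (Fv M piv w) atTop (𝓝 0) ∧
      Tendsto (fun t => t * Fv M piv w t) atTop (𝓝 0) := by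
  obtain ⟨c, hc, hd⟩ := Fv_decay M piv h v w hv hw hC
  have h1 : Tendsto (fun t : ℝ => Fv M piv w 0 * Real.exp (-(t / c))) atTop (𝓝 0) := by
    have : Tendsto (fun t : ℝ => Real.exp (-(t / c))) atTop (𝓝 0) :=
      Real.tendsto_exp_neg_atTop_nhds_zero.comp (tendsto_id.atTop_div_const hc)
    simpa using this.const_mul (Fv M piv w 0)
  have h2 : Tendsto (fun t : ℝ => Fv M piv w 0 * c * ((t / c) * Real.exp (-(t / c)))) atTop
      (𝓝 0) := by
    have h3 : Tendsto (fun t : ℝ => (t / c) ^ 1 * Real.exp (-(t / c))) atTop (𝓝 0) :=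
      (Real.tendsto_pow_mul_exp_neg_atTop_nhds_zero 1).comp (tendsto_id.atTop_div_const hc)
    simp only [pow_one] at h3
    simpa using h3.const_mul (Fv M piv w 0 * c)
  constructor
  · refine squeeze_zero' ?_ ?_ h1
    · filter_upwards [eventually_ge_atTop 0] with t ht
      exact Fv_nonneg M piv h w (fun i => (hw i).le) t ht
    · filter_upwards [eventually_ge_atTop 0] with t ht
      exact hd t ht
  · refine squeeze_zero' ?_ ?_ h2
    · filter_upwards [eventually_ge_atTop 0] with t ht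
      exact mul_nonneg ht (Fv_nonneg M piv h w (fun i => (hw i).le) t ht)
    · filter_upwards [eventually_ge_atTop 0] with t ht
      have := mul_le_mul_of_nonneg_left (hd t ht) ht
      calc t * Fv M piv w t ≤ t * (Fv M piv w 0 * Real.exp (-(t / c))) := this
        _ = _ := by field_simp

/-- `z = C⁻² 1` -/
noncomputable def z : Fin p → ℝ := -(M.C⁻¹ *ᵥ y M)

theorem C_z (h : M.IsStat piv) : M.C *ᵥ z M = -y M := by
  unfold z
  rw [Matrix.mulVec_neg, Matrix.mulVec_mulVec, Matrix.mul_nonsing_inv _ (C_det M piv h),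
    Matrix.one_mulVec]

theorem y_pos (h : M.IsStat piv) (i : Fin p) : 0 < y M i := by
  refine pos_of_C_neg M (y M) (fun i => ?_) i
  rw [C_y M piv h]
  simp

theorem z_pos (h : M.IsStat piv) (i : Fin p) : 0 < z M i := by
  refine pos_of_C_neg M (z M) (fun i => ?_) i
  rw [C_z M piv h]
  have := y_pos M piv h i
  simpa using this

theorem int1 (h : M.IsStat piv) : IntegrableOn (Fv M piv 1) (Set.Ioi 0) ∧
    ∫ t in Set.Ioi (0 : ℝ), Fv M piv 1 t = alpha M piv ⬝ᵥ y M := by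
  have hd : ∀ t ∈ Set.Ioi (0 : ℝ), HasDerivAt (Fv M piv (y M)) (-Fv M piv 1 t) t := by
    intro t _
    have := Fv_deriv M piv (y M) t
    rwa [C_y M piv h, Fv_neg] at this
  have hs : ∀ t ∈ Set.Ioi (0 : ℝ), -Fv M piv 1 t ≤ 0 := fun t ht => by
    have := Fv_nonneg M piv h 1 (fun _ => zero_le_one) t (le_of_lt ht)
    linarith
  have ht := (Fv_tendsto M piv h 1 (y M) (fun _ => zero_lt_one) (y_pos M piv h)
    (C_y M piv h)).1
  have h1 := integrableOn_Ioi_deriv_of_nonpos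
    (Fv_cont M piv (y M)).continuousAt.continuousWithinAt hd hs ht
  have h2 := integral_Ioi_of_hasDerivAt_of_nonpos
    (Fv_cont M piv (y M)).continuousAt.continuousWithinAt hd hs ht
  refine ⟨by simpa using h1.neg, ?_⟩
  rw [integral_neg, Fv_zero] at h2
  linarith

theorem int2 (h : M.IsStat piv) : IntegrableOn (fun t => t * Fv M piv 1 t) (Set.Ioi 0) ∧
    ∫ t in Set.Ioi (0 : ℝ), t * Fv M piv 1 t = alpha M piv ⬝ᵥ z M := by
  have hd : ∀ t ∈ Set.Ioi (0 : ℝ), HasDerivAt (fun t => t * Fv M piv (y M) t + Fv M piv (z M) t)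
      (-(t * Fv M piv 1 t)) t := by
    intro t _
    have h1 := Fv_deriv M piv (y M) t
    rw [C_y M piv h, Fv_neg] at h1
    have h2 := Fv_deriv M piv (z M) t
    rw [C_z M piv h, Fv_neg] at h2
    have h3 := ((hasDerivAt_id t).mul h1).add h2
    refine h3.congr_deriv ?_
    simp only [id, one_mul]
    ring
  have hs : ∀ t ∈ Set.Ioi (0 : ℝ), -(t * Fv M piv 1 t) ≤ 0 := fun t ht => by
    have := Fv_nonneg M piv h 1 (fun _ => zero_le_one) t (le_of_lt ht)
    have := mul_nonneg (le_of_lt ht : (0 : ℝ) ≤ t) this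
    linarith
  have ht1 := (Fv_tendsto M piv h 1 (y M) (fun _ => zero_lt_one) (y_pos M piv h)
    (C_y M piv h)).2
  have ht2 := (Fv_tendsto M piv h (y M) (z M) (y_pos M piv h) (z_pos M piv h)
    (C_z M piv h)).1
  have ht : Tendsto (fun t => t * Fv M piv (y M) t + Fv M piv (z M) t) atTop (𝓝 0) := by
    simpa using ht1.add ht2
  have hc : ContinuousWithinAt (fun t => t * Fv M piv (y M) t + Fv M piv (z M) t)
      (Set.Ici 0) 0 :=
    ((continuous_id.mul (Fv_cont M piv (y M))).add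
      (Fv_cont M piv (z M))).continuousAt.continuousWithinAt
  have h1 := integrableOn_Ioi_deriv_of_nonpos hc hd hs ht
  have h2 := integral_Ioi_of_hasDerivAt_of_nonpos hc hd hs ht
  refine ⟨by simpa using h1.neg, ?_⟩
  rw [integral_neg, Fv_zero, Fv_zero, zero_mul] at h2
  linarith

theorem alpha_y (h : M.IsStat piv) : alpha M piv ⬝ᵥ y M = (rate M piv)⁻¹ := by
  have h1 := piv_C M piv h (y M)
  rw [C_y M piv h] at h1
  have h2 : piv ⬝ᵥ (-1 : Fin p → ℝ) = -1 := by
    rw [dotProduct_neg]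
    congr 1
    simp only [dotProduct, Pi.one_apply, mul_one]
    exact h.sum_one
  rw [h2] at h1
  rw [alpha_dot, show ∑ i, piv i * M.lam i * y M i = 1 by linarith, mul_one]

theorem alpha_z (h : M.IsStat piv) :
    alpha M piv ⬝ᵥ z M = (rate M piv)⁻¹ * (piv ⬝ᵥ y M) := by
  have h1 := piv_C M piv h (z M)
  rw [C_z M piv h, dotProduct_neg] at h1
  rw [alpha_dot, show ∑ i, piv i * M.lam i * z M i = piv ⬝ᵥ y M by linarith]

theorem prod_eq (h : M.IsStat piv) :
    (piv ⬝ᵥ (M.C *ᵥ 1)) * (piv ⬝ᵥ (M.C⁻¹ *ᵥ 1)) = rate M piv * (piv ⬝ᵥ y M) := by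
  have e2 : piv ⬝ᵥ (M.C *ᵥ 1) = -rate M piv := by
    rw [piv_C M piv h]
    simp [rate]
  have e3 : piv ⬝ᵥ (M.C⁻¹ *ᵥ 1) = -(piv ⬝ᵥ y M) := by
    unfold y
    simp
  rw [e2, e3, neg_mul_neg]

end Pool.Agent.NH98.Mmpp
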