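import Mathlib
import Pool.Agent.NH98.MmppLaw

/-! The law of the inter-event time: existence, and its first two moments. -/

set_option autoImplicit false

namespace Pool.Agent.NH98.Mmpp

open Matrix Pool.R957.Mmpp Finset MeasureTheory Filter Topology ProbabilityTheory

variable {p : ℕ} (M : MMPP p) (piv : Fin p → ℝ)

theorem Fv_one_zero (h : M.IsStat piv) : Fv M piv 1 0 = 1 := by
  rw [Fv_zero, alpha_one M piv h]

theorem Fv_one_anti (h : M.IsStat piv) : AntitoneOn (Fv M piv 1) (Set.Ici 0) := by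
  refine antitoneOn_of_deriv_nonpos (convex_Ici 0) (Fv_cont M piv 1).continuousOn
    (fun t _ => (Fv_deriv M piv 1 t).differentiableAt.differentiableWithinAt) ?_
  intro t ht
  rw [interior_Ici] at ht
  rw [(Fv_deriv M piv 1 t).deriv]
  have hC : M.C *ᵥ (1 : Fin p → ℝ) = -M.lam := by
    funext i
    rw [C_mulVec]
    simp only [Pi.one_apply, mul_one, Pi.neg_apply]
    rw [M.gen.rowsum i, zero_sub]
  rw [hC, Fv_neg]
  have := Fv_nonneg M piv h M.lam M.lam_nonneg t (le_of_lt ht)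
  linarith

/-- distribution function of the inter-event time -/
noncomputable def cdfFun (h : M.IsStat piv) : StieltjesFunction ℝ where
  toFun x := 1 - Fv M piv 1 (max x 0)
  mono' := by
    intro x y hxy
    have h1 := Fv_one_anti M piv h (Set.mem_Ici.2 (le_max_right x 0))
      (Set.mem_Ici.2 (le_max_right y 0)) (max_le_max_right 0 hxy)
    show 1 - Fv M piv 1 (max x 0) ≤ 1 - Fv M piv 1 (max y 0)
    linarith
  right_continuous' := by
    intro x
    have : Continuous fun x : ℝ => 1 - Fv M piv 1 (max x 0) :=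
      continuous_const.sub ((Fv_cont M piv 1).comp (continuous_id.max continuous_const))
    exact this.continuousAt.continuousWithinAt

theorem cdfFun_apply (h : M.IsStat piv) (x : ℝ) :
    cdfFun M piv h x = 1 - Fv M piv 1 (max x 0) := rfl

theorem cdfFun_bot (h : M.IsStat piv) : Tendsto (cdfFun M piv h) atBot (𝓝 0) := by
  refine tendsto_const_nhds.congr' ?_
  filter_upwards [eventually_le_atBot 0] with x hx
  rw [cdfFun_apply, max_eq_right hx, Fv_one_zero M piv h, sub_self]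

theorem cdfFun_top (h : M.IsStat piv) : Tendsto (cdfFun M piv h) atTop (𝓝 1) := by
  have h1 := (Fv_tendsto M piv h 1 (y M) (fun _ => zero_lt_one) (y_pos M piv h)
    (C_y M piv h)).1
  obtain ⟨c, hc, hcy⟩ := comparable (1 : Fin p → ℝ) (y M) (y_pos M piv h)
  have h2 : Tendsto (Fv M piv 1) atTop (𝓝 0) := by
    have h3 : Tendsto (fun t => c * Fv M piv (y M) t) atTop (𝓝 0) := by
      simpa using h1.const_mul c
    refine squeeze_zero' ?_ ?_ h3
    · filter_upwards [eventually_ge_atTop 0] with t ht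
      exact Fv_nonneg M piv h 1 (fun _ => zero_le_one) t ht
    · filter_upwards [eventually_ge_atTop 0] with t ht
      rw [← Fv_smul]
      exact Fv_mono M piv h _ _ hcy t ht
  have h4 : Tendsto (fun t => 1 - Fv M piv 1 t) atTop (𝓝 1) := by
    simpa using h2.const_sub 1
  refine h4.congr' ?_
  filter_upwards [eventually_ge_atTop 0] with x hx
  rw [cdfFun_apply, max_eq_left hx]

theorem exists_law (h : M.IsStat piv) : ∃ μ : Measure ℝ, IsProbabilityMeasure μ ∧
    ∀ t, 0 ≤ t → μ.real (Set.Ioi t) = Fv M piv 1 t := by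
  refine ⟨(cdfFun M piv h).measure,
    (cdfFun M piv h).isProbabilityMeasure (cdfFun_bot M piv h) (cdfFun_top M piv h), ?_⟩
  intro t ht
  rw [Measure.real, StieltjesFunction.measure_Ioi _ (cdfFun_top M piv h), cdfFun_apply,
    max_eq_left ht, sub_sub_cancel, ENNReal.toReal_ofReal (Fv_nonneg M piv h 1
      (fun _ => zero_le_one) t ht)]

/-- first moment, as a lower integral -/
theorem lint1 (h : M.IsStat piv) (μ : Measure ℝ) [IsProbabilityMeasure μ]
    (hμ : ∀ t, 0 ≤ t → μ.real (Set.Ioi t) = Fv M piv 1 t) (hpos : ∀ᵐ x ∂μ, 0 ≤ x) :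
    ∫⁻ x, ENNReal.ofReal x ∂μ = ENNReal.ofReal (alpha M piv ⬝ᵥ y M) := by
  have h1 := lintegral_eq_lintegral_meas_lt μ (f := id) hpos aemeasurable_id
  simp only [id] at h1
  rw [h1, ← (int1 M piv h).2, ofReal_integral_eq_lintegral_ofReal (int1 M piv h).1]
  · refine setLIntegral_congr_fun measurableSet_Ioi ?_
    intro t ht
    have := hμ t (le_of_lt ht)
    show μ (Set.Ioi t) = ENNReal.ofReal (Fv M piv 1 t)
    rw [← this, Measure.real, ENNReal.ofReal_toReal (measure_ne_top _ _)]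
  · refine (ae_restrict_iff' measurableSet_Ioi).2 (Filter.Eventually.of_forall fun t ht => ?_)
    exact Fv_nonneg M piv h 1 (fun _ => zero_le_one) t (le_of_lt ht)

theorem lint2 (h : M.IsStat piv) (μ : Measure ℝ) [IsProbabilityMeasure μ]
    (hμ : ∀ t, 0 ≤ t → μ.real (Set.Ioi t) = Fv M piv 1 t) (hpos : ∀ᵐ x ∂μ, 0 ≤ x) :
    ∫⁻ x, ENNReal.ofReal (x ^ 2) ∂μ = ENNReal.ofReal (2 * (alpha M piv ⬝ᵥ z M)) := by
  have h1 := lintegral_rpow_eq_lintegral_meas_lt_mul μ (f := id) hpos aemeasurable_id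
    (p := 2) two_pos
  simp only [id, Real.rpow_two] at h1
  rw [h1, ← (int2 M piv h).2, ENNReal.ofReal_mul two_pos.le,
    ofReal_integral_eq_lintegral_ofReal (int2 M piv h).1]
  · congr 1
    refine setLIntegral_congr_fun measurableSet_Ioi ?_
    intro t ht
    have := hμ t (le_of_lt ht)
    show μ (Set.Ioi t) * ENNReal.ofReal (t ^ ((2 : ℝ) - 1)) =
      ENNReal.ofReal (t * Fv M piv 1 t)
    rw [← this, Measure.real, ENNReal.ofReal_mul (le_of_lt ht),
      ENNReal.ofReal_toReal (measure_ne_top _ _), show (2 : ℝ) - 1 = 1 by norm_num,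
      Real.rpow_one, mul_comm]
  · refine (ae_restrict_iff' measurableSet_Ioi).2 (Filter.Eventually.of_forall fun t ht => ?_)
    exact mul_nonneg (le_of_lt ht) (Fv_nonneg M piv h 1 (fun _ => zero_le_one) t (le_of_lt ht))

theorem law_pos (h : M.IsStat piv) (μ : Measure ℝ) [IsProbabilityMeasure μ]
    (hμ : ∀ t, 0 ≤ t → μ.real (Set.Ioi t) = Fv M piv 1 t) : ∀ᵐ x ∂μ, 0 < x := by
  have h0 := hμ 0 le_rfl
  rw [Fv_one_zero M piv h] at h0
  rw [ae_iff]
  have : {a : ℝ | ¬ 0 < a} = (Set.Ioi (0 : ℝ))ᶜ := by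
    ext a
    simp
  rw [this]
  have h2 : μ.real (Set.Ioi (0 : ℝ))ᶜ = 0 := by
    rw [probReal_compl_eq_one_sub measurableSet_Ioi, h0, sub_self]
  exact (measureReal_eq_zero_iff (measure_ne_top _ _)).1 h2

theorem moments (h : M.IsStat piv) (μ : Measure ℝ) [IsProbabilityMeasure μ]
    (hμ : ∀ t, 0 ≤ t → μ.real (Set.Ioi t) = Fv M piv 1 t) :
    MemLp id 2 μ ∧ ∫ x, x ∂μ = (rate M piv)⁻¹ ∧
      ∫ x, x ^ 2 ∂μ = 2 * ((rate M piv)⁻¹ * (piv ⬝ᵥ y M)) := by
  have hp := law_pos M piv h μ hμ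
  have hpos : ∀ᵐ x ∂μ, (0 : ℝ) ≤ x := hp.mono fun x hx => hx.le
  have l1 := lint1 M piv h μ hμ hpos
  have l2 := lint2 M piv h μ hμ hpos
  have hr := rate_pos M piv h
  have hy0 : 0 ≤ piv ⬝ᵥ y M :=
    Finset.sum_nonneg fun i _ => mul_nonneg (h.nonneg i) (y_pos M piv h i).le
  rw [alpha_y M piv h] at l1
  rw [alpha_z M piv h] at l2
  refine ⟨?_, ?_, ?_⟩
  · rw [memLp_two_iff_integrable_sq aestronglyMeasurable_id]
    refine ⟨(measurable_id.pow_const 2).aestronglyMeasurable, ?_⟩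
    rw [hasFiniteIntegral_iff_ofReal (Filter.Eventually.of_forall fun x => sq_nonneg _)]
    simp only [id]
    rw [l2]
    exact ENNReal.ofReal_lt_top
  · rw [integral_eq_lintegral_of_nonneg_ae hpos aestronglyMeasurable_id, l1,
      ENNReal.toReal_ofReal (inv_nonneg.2 hr.le)]
  · rw [integral_eq_lintegral_of_nonneg_ae (Filter.Eventually.of_forall fun x => sq_nonneg _)
      (measurable_id'.pow_const 2).aestronglyMeasurable, l2, ENNReal.toReal_ofReal]
    exact mul_nonneg two_pos.le (mul_nonneg (inv_nonneg.2 hr.le) hy0)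

theorem final (h : M.IsStat piv) (μ : Measure ℝ) [IsProbabilityMeasure μ]
    (hμ : ∀ t, 0 ≤ t → μ.real (Set.Ioi t) = Fv M piv 1 t) :
    MemLp id 2 μ ∧ 0 < ∫ x, x ∂μ ∧
      variance id μ / (∫ x, x ∂μ) ^ 2 + 1 =
        2 * ((piv ⬝ᵥ (M.C *ᵥ 1)) * (piv ⬝ᵥ (M.C⁻¹ *ᵥ 1))) ∧
      1 ≤ variance id μ / (∫ x, x ∂μ) ^ 2 := by
  obtain ⟨h1, h2, h3⟩ := moments M piv h μ hμ
  have hr := rate_pos M piv h
  have hv : variance id μ = 2 * ((rate M piv)⁻¹ * (piv ⬝ᵥ y M)) - (rate M piv)⁻¹ ^ 2 := by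
    rw [variance_eq_sub h1]
    congr 1
    simp only [id]
    rw [h2]
  have hq : variance id μ / (∫ x, x ∂μ) ^ 2 + 1 =
        2 * ((piv ⬝ᵥ (M.C *ᵥ 1)) * (piv ⬝ᵥ (M.C⁻¹ *ᵥ 1))) := by
    rw [hv, h2, prod_eq M piv h]
    field_simp
    ring
  refine ⟨h1, ?_, hq, ?_⟩
  · rw [h2]
    exact inv_pos.2 hr
  · have := main_ineq M piv h
    linarith

end Pool.Agent.NH98.Mmpp
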