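import Mathlib

/-! Support of a rotation invariant probability measure on the plane from its radial
distribution function. -/

set_option autoImplicit false

namespace Pool.Agent.NH98.VarProfile

open MeasureTheory Metric Set Filter Topology

theorem rot_ball (μ : Measure ℂ) (hrot : ∀ θ : ℝ,
    μ.map (fun z => Complex.exp (θ * Complex.I) * z) = μ) (z : ℂ) (ε : ℝ) (θ : ℝ) :
    μ (ball (Complex.exp (θ * Complex.I) * z) ε) = μ (ball z ε) := by
  have hm : Measurable fun z : ℂ => Complex.exp (θ * Complex.I) * z := by fun_prop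
  conv_lhs => rw [← hrot θ]
  rw [Measure.map_apply hm measurableSet_ball]
  congr 1
  ext w
  simp only [mem_preimage, mem_ball, Complex.dist_eq]
  rw [← mul_sub, norm_mul, Complex.norm_exp_ofReal_mul_I, one_mul]

theorem cover (z w : ℂ) (hz : z ≠ 0) (ε : ℝ) (hw : w ≠ 0) (hlow : ‖z‖ - ε / 2 < ‖w‖)
    (hup : ‖w‖ ≤ ‖z‖) : ∃ θ : ℚ, w ∈ ball (Complex.exp (((θ : ℝ) : ℂ) * Complex.I) * z) ε := by
  have hε : 0 < ε := by linarith
  have hz' : 0 < ‖z‖ := norm_pos_iff.2 hz
  have hw' : 0 < ‖w‖ := norm_pos_iff.2 hw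
  set c : ℂ := ((‖z‖ / ‖w‖ : ℝ) : ℂ) * w with hc
  have hcn : ‖c‖ = ‖z‖ := by
    rw [hc, norm_mul, Complex.norm_real, Real.norm_of_nonneg (by positivity)]
    field_simp
  have h1 : ‖c / z‖ = 1 := by
    rw [norm_div, hcn, div_self hz'.ne']
  have h2 : Complex.exp ((Complex.arg (c / z) : ℂ) * Complex.I) * z = c := by
    have := Complex.norm_mul_exp_arg_mul_I (c / z)
    rw [h1] at this
    simp only [Complex.ofReal_one, one_mul] at this
    rw [this]
    field_simp
  have hwc : ‖w - c‖ < ε / 2 := by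
    have : w - c = ((1 - ‖z‖ / ‖w‖ : ℝ) : ℂ) * w := by
      rw [hc]
      push_cast
      ring
    rw [this, norm_mul, Complex.norm_real, Real.norm_eq_abs, abs_of_nonpos]
    · have : -(1 - ‖z‖ / ‖w‖) * ‖w‖ = ‖z‖ - ‖w‖ := by
        field_simp
        ring
      rw [this]
      linarith
    · have : 1 ≤ ‖z‖ / ‖w‖ := by
        rw [le_div_iff₀ hw']
        linarith
      linarith
  have hcont : Continuous fun θ : ℝ => Complex.exp ((θ : ℂ) * Complex.I) * z := by fun_prop
  have hopen : IsOpen ((fun θ : ℝ => Complex.exp ((θ : ℂ) * Complex.I) * z) ⁻¹' ball c (ε / 2)) :=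
    isOpen_ball.preimage hcont
  obtain ⟨θ, hθ⟩ := Rat.denseRange_cast.exists_mem_open hopen
    ⟨Complex.arg (c / z), by
      show Complex.exp ((Complex.arg (c / z) : ℂ) * Complex.I) * z ∈ ball c (ε / 2)
      rw [h2]
      exact mem_ball_self (by linarith)⟩
  refine ⟨θ, ?_⟩
  have h3 : dist (Complex.exp (((θ : ℝ) : ℂ) * Complex.I) * z) c < ε / 2 := hθ
  rw [mem_ball]
  calc dist w (Complex.exp (((θ : ℝ) : ℂ) * Complex.I) * z)
      ≤ dist w c + dist c (Complex.exp (((θ : ℝ) : ℂ) * Complex.I) * z) := dist_triangle _ _ _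
    _ < ε / 2 + ε / 2 := by
        refine add_lt_add ?_ ?_
        · rw [Complex.dist_eq]
          exact hwc
        · rw [dist_comm]
          exact h3
    _ = ε := by ring

theorem support_eq (R : ℝ) (F : ℝ → ℝ)
    (hF : StrictMonoOn F (Ioc 0 R)) (hF1 : ∀ s, 0 < s → R ≤ s → F s = 1)
    (μ : Measure ℂ) [IsProbabilityMeasure μ]
    (hrot : ∀ θ : ℝ, μ.map (fun z => Complex.exp (θ * Complex.I) * z) = μ)
    (hμ : ∀ s, 0 < s → μ.real (closedBall 0 s) = F s) (hR : 0 ≤ R) :
    μ.support = closedBall 0 R := by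
  apply Subset.antisymm
  · refine Measure.support_subset_of_isClosed isClosed_closedBall ?_
    have h1 : ∀ᵐ z ∂μ, ∀ k : ℕ, z ∈ closedBall (0 : ℂ) (R + 1 / ((k : ℝ) + 1)) := by
      rw [ae_all_iff]
      intro k
      have hk : (0 : ℝ) < 1 / ((k : ℝ) + 1) := by positivity
      have h2 := hμ (R + 1 / ((k : ℝ) + 1)) (by linarith)
      rw [hF1 _ (by linarith) (by linarith)] at h2
      have h3 : μ (closedBall (0 : ℂ) (R + 1 / ((k : ℝ) + 1))) = 1 := by
        rw [← ENNReal.ofReal_toReal (measure_ne_top μ _)]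
        rw [show (μ (closedBall (0 : ℂ) (R + 1 / ((k : ℝ) + 1)))).toReal = 1 from h2]
        exact ENNReal.ofReal_one
      exact (mem_ae_iff_prob_eq_one isClosed_closedBall.measurableSet).2 h3
    have h2 : ∀ᵐ z ∂μ, z ∈ closedBall (0 : ℂ) R := by
      filter_upwards [h1] with z hz
      rw [mem_closedBall, dist_zero_right]
      refine le_of_forall_pos_le_add fun ε hε => ?_
      obtain ⟨k, hk⟩ := exists_nat_one_div_lt hε
      have := hz k
      rw [mem_closedBall, dist_zero_right] at this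
      linarith
    exact h2
  · intro z hz
    rw [mem_closedBall, dist_zero_right] at hz
    rw [Measure.mem_support_iff_forall]
    intro U hU
    obtain ⟨ε, hε, hεU⟩ := Metric.mem_nhds_iff.1 hU
    refine lt_of_lt_of_le ?_ (measure_mono hεU)
    by_contra hcon
    have hzero : μ (ball z ε) = 0 := le_antisymm (not_lt.1 hcon) zero_le
    by_cases hz0 : z = 0
    · subst hz0
      have hsub : closedBall (0 : ℂ) (ε / 2) ⊆ ball 0 ε := closedBall_subset_ball (by linarith)
      have h1 : μ (closedBall (0 : ℂ) (ε / 2)) = 0 := measure_mono_null hsub hzero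
      have h2 := hμ (ε / 2) (by linarith)
      rw [Measure.real, h1, ENNReal.toReal_zero] at h2
      by_cases hRε : R ≤ ε / 2
      · rw [hF1 _ (by linarith) hRε] at h2
        norm_num at h2
      · push Not at hRε
        have h3 := hF (a := ε / 4) (b := ε / 2) ⟨by linarith, by linarith⟩
          ⟨by linarith, hRε.le⟩ (by linarith)
        have h4 := hμ (ε / 4) (by linarith)
        have h5 : 0 ≤ μ.real (closedBall (0 : ℂ) (ε / 4)) := measureReal_nonneg
        linarith
    · have hz' : 0 < ‖z‖ := norm_pos_iff.2 hz0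
      set t : ℝ := max (‖z‖ - ε / 2) (‖z‖ / 2) with ht
      have ht0 : 0 < t := lt_of_lt_of_le (by linarith) (le_max_right _ _)
      have htz : t < ‖z‖ := max_lt (by linarith) (by linarith)
      have h1 := hF (a := t) (b := ‖z‖) ⟨ht0, by linarith⟩ ⟨hz', hz⟩ htz
      rw [← hμ t ht0, ← hμ ‖z‖ hz'] at h1
      have hcov : closedBall (0 : ℂ) ‖z‖ ⊆ closedBall (0 : ℂ) t ∪
          ⋃ θ : ℚ, ball (Complex.exp (((θ : ℝ) : ℂ) * Complex.I) * z) ε := by
        intro w hw
        by_cases hwt : w ∈ closedBall (0 : ℂ) t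
        · exact Or.inl hwt
        · refine Or.inr ?_
          rw [mem_closedBall, dist_zero_right] at hw hwt
          push Not at hwt
          have hw0 : w ≠ 0 := by
            rintro rfl
            rw [norm_zero] at hwt
            linarith
          obtain ⟨θ, hθ⟩ := cover z w hz0 ε hw0
            (lt_of_le_of_lt (le_max_left _ _) hwt) hw
          exact mem_iUnion.2 ⟨θ, hθ⟩
      have hnull : μ (⋃ θ : ℚ, ball (Complex.exp (((θ : ℝ) : ℂ) * Complex.I) * z) ε) = 0 := by
        rw [measure_iUnion_null_iff]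
        intro θ
        rw [rot_ball μ hrot, hzero]
      have h2 : μ (closedBall (0 : ℂ) ‖z‖) ≤ μ (closedBall (0 : ℂ) t) := by
        refine (measure_mono hcov).trans ((measure_union_le _ _).trans ?_)
        rw [hnull, add_zero]
      have h3 : μ.real (closedBall (0 : ℂ) ‖z‖) ≤ μ.real (closedBall (0 : ℂ) t) :=
        ENNReal.toReal_mono (measure_ne_top _ _) h2
      linarith

end Pool.Agent.NH98.VarProfile
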