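import Mathlib

/-! Master Equations of a variance profile: the function `F_A` is strictly increasing. -/

set_option autoImplicit false

namespace Pool.Agent.NH98.VarProfile

open Matrix Finset

variable {n : ℕ}

/-- The variance matrix `V = (1/n) (σ_ij²)`. -/
noncomputable def varMat (A : Matrix (Fin n) (Fin n) ℝ) : Matrix (Fin n) (Fin n) ℝ :=
  Matrix.of fun i j => (A i j) ^ 2 / (n : ℝ)

/-- The spectral radius of a real square matrix (largest modulus of a complex eigenvalue). -/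
noncomputable def rho (V : Matrix (Fin n) (Fin n) ℝ) : ℝ :=
  (spectralRadius ℂ (V.map (algebraMap ℝ ℂ))).toReal

/-- `q, qt` solve the Master Equations at `s`. -/
structure IsMaster (V : Matrix (Fin n) (Fin n) ℝ) (s : ℝ) (q qt : Fin n → ℝ) : Prop where
  q_nonneg : ∀ i, 0 ≤ q i
  qt_nonneg : ∀ i, 0 ≤ qt i
  eq_q : ∀ i, q i = (Vᵀ *ᵥ q) i / (s ^ 2 + (V *ᵥ qt) i * (Vᵀ *ᵥ q) i)
  eq_qt : ∀ i, qt i = (V *ᵥ qt) i / (s ^ 2 + (V *ᵥ qt) i * (Vᵀ *ᵥ q) i)
  sum_eq : ∑ i, q i = ∑ i, qt i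

/-- `q, qt` is the selected family of solutions: zero for `s ≥ √ρ(V)`, and a nonzero solution
for `0 < s < √ρ(V)`. -/
structure IsSelected (V : Matrix (Fin n) (Fin n) ℝ) (q qt : ℝ → Fin n → ℝ) : Prop where
  master : ∀ s, 0 < s → IsMaster V s (q s) (qt s)
  zero : ∀ s, 0 < s → Real.sqrt (rho V) ≤ s → q s = 0 ∧ qt s = 0
  nonzero : ∀ s, 0 < s → s < Real.sqrt (rho V) → ¬ (q s = 0 ∧ qt s = 0)

/-- `F_A(s) = 1 - (1/n) ⟨q(s), V qt(s)⟩`. -/
noncomputable def FA (V : Matrix (Fin n) (Fin n) ℝ) (q qt : ℝ → Fin n → ℝ) (s : ℝ) : ℝ :=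
  1 - (1 / (n : ℝ)) * (q s ⬝ᵥ (V *ᵥ qt s))

/-! ### Positivity of nonzero solutions -/

theorem mv_nonneg (V : Matrix (Fin n) (Fin n) ℝ) (hV : ∀ i j, 0 ≤ V i j) (v : Fin n → ℝ)
    (hv : ∀ i, 0 ≤ v i) (i : Fin n) : 0 ≤ (V *ᵥ v) i := by
  show 0 ≤ ∑ j, V i j * v j
  exact Finset.sum_nonneg fun j _ => mul_nonneg (hV i j) (hv j)

theorem mvt_nonneg (V : Matrix (Fin n) (Fin n) ℝ) (hV : ∀ i j, 0 ≤ V i j) (v : Fin n → ℝ)
    (hv : ∀ i, 0 ≤ v i) (i : Fin n) : 0 ≤ (Vᵀ *ᵥ v) i :=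
  mv_nonneg Vᵀ (fun i j => hV j i) v hv i

theorem pos_of_reach (r : Fin n → Fin n → Prop) (P : Fin n → Prop) (i j : Fin n)
    (hij : Relation.ReflTransGen r i j) (hi : P i) (hstep : ∀ a b, P a → r a b → P b) : P j := by
  induction hij with
  | refl => exact hi
  | tail _ hbc ih => exact hstep _ _ ih hbc

theorem master_pos (V : Matrix (Fin n) (Fin n) ℝ) (hV : ∀ i j, 0 ≤ V i j)
    (hirr : ∀ i j, Relation.ReflTransGen (fun a b => 0 < V a b) i j) (s : ℝ) (hs : 0 < s)
    (q qt : Fin n → ℝ) (h : IsMaster V s q qt) (hne : ¬ (q = 0 ∧ qt = 0)) :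
    (∀ i, 0 < q i) ∧ ∀ i, 0 < qt i := by
  have hq0 := h.q_nonneg
  have ht0 := h.qt_nonneg
  have hphi : ∀ i, 0 ≤ (V *ᵥ qt) i := mv_nonneg V hV qt ht0
  have hpsi : ∀ i, 0 ≤ (Vᵀ *ᵥ q) i := mvt_nonneg V hV q hq0
  have hden : ∀ i, 0 < s ^ 2 + (V *ᵥ qt) i * (Vᵀ *ᵥ q) i := fun i => by
    have := mul_nonneg (hphi i) (hpsi i)
    positivity
  have hq : ∃ i, 0 < q i := by
    by_contra hcon
    push Not at hcon
    have hq : q = 0 := funext fun i => le_antisymm (hcon i) (hq0 i)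
    have hsum : ∑ i, qt i = 0 := by
      rw [← h.sum_eq, hq]
      simp
    have hqt : qt = 0 := funext fun i =>
      (Finset.sum_eq_zero_iff_of_nonneg fun j _ => ht0 j).1 hsum i (mem_univ i)
    exact hne ⟨hq, hqt⟩
  have ht : ∃ i, 0 < qt i := by
    by_contra hcon
    push Not at hcon
    have hq : qt = 0 := funext fun i => le_antisymm (hcon i) (ht0 i)
    have hsum : ∑ i, q i = 0 := by
      rw [h.sum_eq, hq]
      simp
    have hqt : q = 0 := funext fun i =>
      (Finset.sum_eq_zero_iff_of_nonneg fun j _ => hq0 j).1 hsum i (mem_univ i)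
    exact hne ⟨hqt, hq⟩
  constructor
  · intro j
    obtain ⟨i, hi⟩ := hq
    refine pos_of_reach (fun a b => 0 < V a b) (fun a => 0 < q a) i j (hirr i j) hi ?_
    intro a b ha hab
    rw [h.eq_q b]
    refine div_pos ?_ (hden b)
    exact Finset.sum_pos' (fun c _ => mul_nonneg (hV c b) (hq0 c))
      ⟨a, mem_univ a, mul_pos hab ha⟩
  · intro j
    obtain ⟨i, hi⟩ := ht
    have hrev : Relation.ReflTransGen (fun a b => 0 < V b a) i j := by
      have := (Relation.reflTransGen_swap (r := fun a b => 0 < V a b) (a := i) (b := j)).2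
        (hirr j i)
      exact this
    refine pos_of_reach (fun a b => 0 < V b a) (fun a => 0 < qt a) i j hrev hi ?_
    intro a b ha hab
    rw [h.eq_qt b]
    refine div_pos ?_ (hden b)
    exact Finset.sum_pos' (fun c _ => mul_nonneg (hV b c) (ht0 c))
      ⟨a, mem_univ a, mul_pos hab ha⟩

/-! ### The comparison inequality -/

/-- If `P` is a substochastic-type kernel built from a solution, `Σ w_j log(r*_j / r_j) ≤ 0`. -/
theorem log_ineq (V : Matrix (Fin n) (Fin n) ℝ) (hV : ∀ i j, 0 ≤ V i j)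
    (q r φ r' φ' : Fin n → ℝ) (hq : ∀ i, 0 < q i) (hr : ∀ i, 0 < r i) (hφ : ∀ i, 0 < φ i)
    (hr' : ∀ i, 0 < r' i) (hφ' : ∀ i, 0 < φ' i)
    (h1 : ∀ i, ∑ j, V i j * (r j * φ j) = φ i)
    (h2 : ∀ j, (∑ i, V i j * q i) * r j = q j)
    (h3 : ∀ i, ∑ j, V i j * (r' j * φ' j) = φ' i) :
    ∑ j, q j * φ j * (Real.log (r' j) - Real.log (r j)) ≤ 0 := by
  -- row inequality
  have hrow : ∀ i, ∑ j, V i j * (r j * φ j) *
      ((Real.log (r' j) - Real.log (r j)) + (Real.log (φ' j) - Real.log (φ j)) -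
        (Real.log (φ' i) - Real.log (φ i))) ≤ 0 := by
    intro i
    have hterm : ∀ j, V i j * (r j * φ j) *
        ((Real.log (r' j) - Real.log (r j)) + (Real.log (φ' j) - Real.log (φ j)) -
        (Real.log (φ' i) - Real.log (φ i))) ≤
        (φ i / φ' i) * (V i j * (r' j * φ' j)) - V i j * (r j * φ j) := by
      intro j
      have hx : 0 < (r' j * φ' j * φ i) / (r j * φ j * φ' i) := by
        have := hr' j; have := hφ' j; have := hφ i; have := hr j; have := hφ j; have := hφ' i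
        positivity
      have hlog := Real.log_le_sub_one_of_pos hx
      have e1 : Real.log ((r' j * φ' j * φ i) / (r j * φ j * φ' i)) =
          (Real.log (r' j) - Real.log (r j)) + (Real.log (φ' j) - Real.log (φ j)) -
          (Real.log (φ' i) - Real.log (φ i)) := by
        rw [Real.log_div (by have := hr' j; have := hφ' j; have := hφ i; positivity)
          (by have := hr j; have := hφ j; have := hφ' i; positivity),
          Real.log_mul (by have := hr' j; have := hφ' j; positivity) (hφ i).ne',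
          Real.log_mul (hr' j).ne' (hφ' j).ne',
          Real.log_mul (by have := hr j; have := hφ j; positivity) (hφ' i).ne',
          Real.log_mul (hr j).ne' (hφ j).ne']
        ring
      rw [e1] at hlog
      have hc : 0 ≤ V i j * (r j * φ j) :=
        mul_nonneg (hV i j) (mul_nonneg (hr j).le (hφ j).le)
      refine (mul_le_mul_of_nonneg_left hlog hc).trans (le_of_eq ?_)
      have := (hr j).ne'; have := (hφ j).ne'; have := (hφ' i).ne'
      field_simp
    refine (Finset.sum_le_sum fun j _ => hterm j).trans ?_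
    rw [Finset.sum_sub_distrib, ← Finset.mul_sum, h3 i, h1 i, div_mul_cancel₀ _ (hφ' i).ne',
      sub_self]
  have hcol : ∑ i, q i * ∑ j, V i j * (r j * φ j) *
      ((Real.log (r' j) - Real.log (r j)) + (Real.log (φ' j) - Real.log (φ j)) -
        (Real.log (φ' i) - Real.log (φ i))) ≤ 0 :=
    Finset.sum_nonpos fun i _ => mul_nonpos_of_nonneg_of_nonpos (hq i).le (hrow i)
  have key : ∑ i, q i * ∑ j, V i j * (r j * φ j) *
      ((Real.log (r' j) - Real.log (r j)) + (Real.log (φ' j) - Real.log (φ j)) -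
        (Real.log (φ' i) - Real.log (φ i))) =
      ∑ j, q j * φ j * (Real.log (r' j) - Real.log (r j)) := by
    have e1 : ∑ i, q i * ∑ j, V i j * (r j * φ j) *
      ((Real.log (r' j) - Real.log (r j)) + (Real.log (φ' j) - Real.log (φ j)) -
        (Real.log (φ' i) - Real.log (φ i))) =
        (∑ i, ∑ j, (V i j * q i) * r j * φ j *
          ((Real.log (r' j) - Real.log (r j)) + (Real.log (φ' j) - Real.log (φ j)))) -
        ∑ i, (q i * (Real.log (φ' i) - Real.log (φ i))) * ∑ j, V i j * (r j * φ j) := by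
      rw [← Finset.sum_sub_distrib]
      refine Finset.sum_congr rfl fun i _ => ?_
      rw [Finset.mul_sum, Finset.mul_sum, ← Finset.sum_sub_distrib]
      refine Finset.sum_congr rfl fun j _ => ?_
      ring
    rw [e1, Finset.sum_comm]
    have e2 : ∀ j, ∑ i, (V i j * q i) * r j * φ j *
          ((Real.log (r' j) - Real.log (r j)) + (Real.log (φ' j) - Real.log (φ j))) =
        q j * φ j *
          ((Real.log (r' j) - Real.log (r j)) + (Real.log (φ' j) - Real.log (φ j))) := by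
      intro j
      rw [← Finset.sum_mul, ← Finset.sum_mul, ← Finset.sum_mul, h2 j]
    simp only [e2, h1]
    rw [← Finset.sum_sub_distrib]
    refine Finset.sum_congr rfl fun j _ => ?_
    ring
  rw [key] at hcol
  exact hcol

/-! ### Data of a positive solution -/

/-- the quantities attached to a positive solution -/
theorem master_data (V : Matrix (Fin n) (Fin n) ℝ) (s : ℝ) (hs : 0 < s)
    (q qt : Fin n → ℝ) (h : IsMaster V s q qt) (hq : ∀ i, 0 < q i) (hqt : ∀ i, 0 < qt i)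
    (hV : ∀ i j, 0 ≤ V i j) :
    ∃ r φ : Fin n → ℝ, (∀ i, 0 < r i) ∧ (∀ i, 0 < φ i) ∧
      (∀ i, ∑ j, V i j * (r j * φ j) = φ i) ∧ (∀ j, (∑ i, V i j * q i) * r j = q j) ∧
      (∀ i, (V *ᵥ qt) i = φ i) ∧ (∀ i, q i * φ i = 1 - s ^ 2 * r i) := by
  have hphi0 : ∀ i, 0 ≤ (V *ᵥ qt) i := mv_nonneg V hV qt fun i => (hqt i).le
  have hpsi0 : ∀ i, 0 ≤ (Vᵀ *ᵥ q) i := mvt_nonneg V hV q fun i => (hq i).le
  have hden : ∀ i, 0 < s ^ 2 + (V *ᵥ qt) i * (Vᵀ *ᵥ q) i := fun i => by
    have := mul_nonneg (hphi0 i) (hpsi0 i)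
    positivity
  have hphi : ∀ i, 0 < (V *ᵥ qt) i := by
    intro i
    refine lt_of_le_of_ne (hphi0 i) fun h0 => ?_
    have := h.eq_qt i
    rw [← h0, zero_div] at this
    exact (hqt i).ne' this
  have hpsi : ∀ i, (∑ j, V j i * q j) = (Vᵀ *ᵥ q) i := fun i => rfl
  refine ⟨fun i => (s ^ 2 + (V *ᵥ qt) i * (Vᵀ *ᵥ q) i)⁻¹, V *ᵥ qt, fun i => inv_pos.2 (hden i),
    hphi, ?_, ?_, fun i => rfl, ?_⟩
  · intro i
    show _ = ∑ j, V i j * qt j
    refine Finset.sum_congr rfl fun j _ => ?_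
    have e := h.eq_qt j
    rw [div_eq_mul_inv, mul_comm] at e
    show V i j * ((s ^ 2 + (V *ᵥ qt) j * (Vᵀ *ᵥ q) j)⁻¹ * (V *ᵥ qt) j) = V i j * qt j
    rw [← e]
  · intro j
    rw [hpsi j, ← div_eq_mul_inv]
    exact (h.eq_q j).symm
  · intro i
    have h1 := h.eq_q i
    have h2 := (hden i).ne'
    show q i * (V *ᵥ qt) i = 1 - s ^ 2 * (s ^ 2 + (V *ᵥ qt) i * (Vᵀ *ᵥ q) i)⁻¹
    rw [h1]
    generalize (V *ᵥ qt) i = a at *
    generalize (Vᵀ *ᵥ q) i = b at *
    have h3 : (s ^ 2 + a * b) * (s ^ 2 + a * b)⁻¹ = 1 := mul_inv_cancel₀ h2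
    rw [div_eq_mul_inv]
    linear_combination h3

/-! ### Strict monotonicity -/

theorem term_le (a b : ℝ) (ha : 0 < a) (hb : 0 < b) :
    (Real.log b - b) - (Real.log a - a) ≤ (1 - a) * (Real.log b - Real.log a) := by
  have h := Real.log_le_sub_one_of_pos (div_pos hb ha)
  rw [Real.log_div hb.ne' ha.ne'] at h
  have h2 := mul_le_mul_of_nonneg_left h ha.le
  have h3 : a * (b / a - 1) = b - a := by
    field_simp
  rw [h3] at h2
  linarith

theorem term_lt (a b : ℝ) (ha : 0 < a) (hb : 0 < b) (hab : a ≠ b) :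
    (Real.log b - b) - (Real.log a - a) < (1 - a) * (Real.log b - Real.log a) := by
  have hne : b / a ≠ 1 := by
    intro h
    rw [div_eq_one_iff_eq ha.ne'] at h
    exact hab h.symm
  have h := Real.log_lt_sub_one_of_pos (div_pos hb ha) hne
  rw [Real.log_div hb.ne' ha.ne'] at h
  have h2 := mul_lt_mul_of_pos_left h ha
  have h3 : a * (b / a - 1) = b - a := by
    field_simp
  rw [h3] at h2
  linarith

/-- `Σ q_i (V qt)_i` strictly decreases along positive solutions. -/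
theorem weight_lt (V : Matrix (Fin n) (Fin n) ℝ) (hV : ∀ i j, 0 ≤ V i j) (hn : 0 < n)
    (s t : ℝ) (hs : 0 < s) (hst : s < t)
    (q qt q' qt' : Fin n → ℝ) (h : IsMaster V s q qt) (h' : IsMaster V t q' qt')
    (hq : ∀ i, 0 < q i) (hqt : ∀ i, 0 < qt i) (hq' : ∀ i, 0 < q' i) (hqt' : ∀ i, 0 < qt' i) :
    q' ⬝ᵥ (V *ᵥ qt') < q ⬝ᵥ (V *ᵥ qt) := by
  have ht : 0 < t := hs.trans hst
  obtain ⟨r, φ, hr, hφ, e1, e2, e3, e4⟩ := master_data V s hs q qt h hq hqt hV
  obtain ⟨r', φ', hr', hφ', e1', e2', e3', e4'⟩ := master_data V t ht q' qt' h' hq' hqt' hV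
  have i1 := log_ineq V hV q r φ r' φ' hq hr hφ hr' hφ' e1 e2 e1'
  have i2 := log_ineq V hV q' r' φ' r φ hq' hr' hφ' hr hφ e1' e2' e1
  have : Nonempty (Fin n) := ⟨⟨0, hn⟩⟩
  set a : Fin n → ℝ := fun j => s ^ 2 * r j with ha
  set b : Fin n → ℝ := fun j => t ^ 2 * r' j with hb
  have ha0 : ∀ j, 0 < a j := fun j => mul_pos (pow_pos hs 2) (hr j)
  have hb0 : ∀ j, 0 < b j := fun j => mul_pos (pow_pos ht 2) (hr' j)
  have la : ∀ j, Real.log (r j) = Real.log (a j) - Real.log (s ^ 2) := fun j => by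
    rw [ha, Real.log_mul (pow_pos hs 2).ne' (hr j).ne']
    ring
  have lb : ∀ j, Real.log (r' j) = Real.log (b j) - Real.log (t ^ 2) := fun j => by
    rw [hb, Real.log_mul (pow_pos ht 2).ne' (hr' j).ne']
    ring
  have hτ : 0 < Real.log (t ^ 2) - Real.log (s ^ 2) := by
    have : Real.log (s ^ 2) < Real.log (t ^ 2) :=
      Real.log_lt_log (pow_pos hs 2) (by nlinarith)
    linarith
  set W : ℝ := ∑ j, (1 - a j) with hW
  set W' : ℝ := ∑ j, (1 - b j) with hW'
  have i3 : ∑ j, (1 - a j) * (Real.log (b j) - Real.log (a j)) ≤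
      (Real.log (t ^ 2) - Real.log (s ^ 2)) * W := by
    have : ∑ j, q j * φ j * (Real.log (r' j) - Real.log (r j)) =
        ∑ j, (1 - a j) * (Real.log (b j) - Real.log (a j)) -
          (Real.log (t ^ 2) - Real.log (s ^ 2)) * W := by
      rw [hW, Finset.mul_sum, ← Finset.sum_sub_distrib]
      refine Finset.sum_congr rfl fun j _ => ?_
      rw [e4 j, la j, lb j]
      ring
    linarith
  have i4 : ∑ j, (1 - b j) * (Real.log (a j) - Real.log (b j)) ≤
      -(Real.log (t ^ 2) - Real.log (s ^ 2)) * W' := by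
    have : ∑ j, q' j * φ' j * (Real.log (r j) - Real.log (r' j)) =
        ∑ j, (1 - b j) * (Real.log (a j) - Real.log (b j)) -
          -(Real.log (t ^ 2) - Real.log (s ^ 2)) * W' := by
      rw [hW', Finset.mul_sum, ← Finset.sum_sub_distrib]
      refine Finset.sum_congr rfl fun j _ => ?_
      rw [e4' j, la j, lb j]
      ring
    linarith
  have hWpos' : 0 < W' := by
    refine Finset.sum_pos (fun j _ => ?_) univ_nonempty
    have := e4' j
    have h1 := mul_pos (hq' j) (hφ' j)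
    show 0 < 1 - t ^ 2 * r' j
    linarith
  set G : ℝ := ∑ j, (Real.log (a j) - a j) with hG
  set G' : ℝ := ∑ j, (Real.log (b j) - b j) with hG'
  have fin1 : q ⬝ᵥ (V *ᵥ qt) = W := by
    rw [hW]
    unfold dotProduct
    refine Finset.sum_congr rfl fun j _ => ?_
    rw [e3 j, e4 j]
  have fin2 : q' ⬝ᵥ (V *ᵥ qt') = W' := by
    rw [hW']
    unfold dotProduct
    refine Finset.sum_congr rfl fun j _ => ?_
    rw [e3' j, e4' j]
  rw [fin1, fin2]
  by_cases hab : a = b
  · exfalso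
    have : ∑ j, (1 - b j) * (Real.log (a j) - Real.log (b j)) = 0 := by
      rw [hab]
      simp
    rw [this] at i4
    nlinarith [mul_pos hτ hWpos']
  · obtain ⟨k, hk⟩ := Function.ne_iff.1 hab
    have j1 : G' - G < ∑ j, (1 - a j) * (Real.log (b j) - Real.log (a j)) := by
      rw [hG, hG', ← Finset.sum_sub_distrib]
      exact Finset.sum_lt_sum (fun j _ => term_le (a j) (b j) (ha0 j) (hb0 j))
        ⟨k, mem_univ k, term_lt (a k) (b k) (ha0 k) (hb0 k) hk⟩
    have j2 : G - G' < ∑ j, (1 - b j) * (Real.log (a j) - Real.log (b j)) := by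
      rw [hG, hG', ← Finset.sum_sub_distrib]
      exact Finset.sum_lt_sum (fun j _ => term_le (b j) (a j) (hb0 j) (ha0 j))
        ⟨k, mem_univ k, term_lt (b k) (a k) (hb0 k) (ha0 k) (Ne.symm hk)⟩
    have : 0 < (Real.log (t ^ 2) - Real.log (s ^ 2)) * (W - W') := by
      rw [mul_sub]
      linarith
    have := (mul_pos_iff_of_pos_left hτ).1 this
    linarith

/-- `F_A` is strictly increasing on `(0, √ρ]` -/
theorem FA_strict (V : Matrix (Fin n) (Fin n) ℝ) (hV : ∀ i j, 0 ≤ V i j) (hn : 0 < n)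
    (hirr : ∀ i j, Relation.ReflTransGen (fun a b => 0 < V a b) i j)
    (q qt : ℝ → Fin n → ℝ) (h : IsSelected V q qt) :
    StrictMonoOn (FA V q qt) (Set.Ioc 0 (Real.sqrt (rho V))) := by
  intro s hs t ht hst
  have hsR : s < Real.sqrt (rho V) := lt_of_lt_of_le hst ht.2
  obtain ⟨hq, hqt⟩ := master_pos V hV hirr s hs.1 (q s) (qt s) (h.master s hs.1)
    (h.nonzero s hs.1 hsR)
  have hn' : (0 : ℝ) < 1 / (n : ℝ) := by
    have : (0 : ℝ) < n := by exact_mod_cast hn
    positivity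
  have key : q t ⬝ᵥ (V *ᵥ qt t) < q s ⬝ᵥ (V *ᵥ qt s) := by
    rcases ht.2.lt_or_eq with h1 | h1
    · obtain ⟨hq', hqt'⟩ := master_pos V hV hirr t ht.1 (q t) (qt t) (h.master t ht.1)
        (h.nonzero t ht.1 h1)
      exact weight_lt V hV hn s t hs.1 hst _ _ _ _ (h.master s hs.1) (h.master t ht.1)
        hq hqt hq' hqt'
    · have hz := h.zero t ht.1 h1.ge
      rw [hz.1, zero_dotProduct]
      obtain ⟨r, φ, hr, hφ, e1, e2, e3, e4⟩ := master_data V s hs.1 (q s) (qt s)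
        (h.master s hs.1) hq hqt hV
      have : Nonempty (Fin n) := ⟨⟨0, hn⟩⟩
      refine Finset.sum_pos (fun j _ => ?_) univ_nonempty
      rw [e3 j]
      exact mul_pos (hq j) (hφ j)
  unfold FA
  have := mul_lt_mul_of_pos_left key hn'
  linarith

theorem FA_one (V : Matrix (Fin n) (Fin n) ℝ) (q qt : ℝ → Fin n → ℝ) (h : IsSelected V q qt)
    (s : ℝ) (hs : 0 < s) (hsR : Real.sqrt (rho V) ≤ s) : FA V q qt s = 1 := by
  unfold FA
  rw [(h.zero s hs hsR).1, zero_dotProduct, mul_zero, sub_zero]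

end Pool.Agent.NH98.VarProfile
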